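import Pool.Agent.H996Z.Nuc.Defs

/-! Basic facts on the nuclear norm, and norming functionals. -/

namespace Pool.Agent.H996Z.Nuc

open Filter Topology

variable {X Y : Type*} [NormedAddCommGroup X] [NormedSpace ℝ X] [NormedAddCommGroup Y]
  [NormedSpace ℝ Y]

lemma bdd (T : X →L[ℝ] Y) :
    BddBelow {r : ℝ | ∃ f y, IsNucRep T f y ∧ r = ∑' n, ‖f n‖ * ‖y n‖} :=
  ⟨0, by
    rintro r ⟨f, y, -, rfl⟩
    exact tsum_nonneg fun n => by positivity⟩

lemma nucNorm_le {T : X →L[ℝ] Y} {f : ℕ → StrongDual ℝ X} {y : ℕ → Y} (h : IsNucRep T f y) :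
    nucNorm T ≤ ∑' n, ‖f n‖ * ‖y n‖ := csInf_le (bdd T) ⟨f, y, h, rfl⟩

lemma le_nucNorm {T : X →L[ℝ] Y} (hT : IsNuclear T) {c : ℝ}
    (h : ∀ f y, IsNucRep T f y → c ≤ ∑' n, ‖f n‖ * ‖y n‖) : c ≤ nucNorm T := by
  obtain ⟨f, y, hfy⟩ := hT
  refine le_csInf ⟨_, f, y, hfy, rfl⟩ ?_
  rintro r ⟨f, y, hfy, rfl⟩
  exact h f y hfy

lemma IsNucRep.smul {T : X →L[ℝ] Y} {f : ℕ → StrongDual ℝ X} {y : ℕ → Y} (h : IsNucRep T f y)
    (c : ℝ) : IsNucRep (c • T) (fun n => c • f n) y := by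
  refine ⟨?_, fun x => ?_⟩
  · simp_rw [norm_smul, mul_assoc]; exact h.1.mul_left _
  · simpa [mul_smul] using (h.2 x).const_smul c

lemma IsNucRep.add {T S : X →L[ℝ] Y} {f g : ℕ → StrongDual ℝ X} {y z : ℕ → Y}
    (h : IsNucRep T f y) (h' : IsNucRep S g z) :
    ∃ a b, IsNucRep (T + S) a b ∧
      ∑' n, ‖a n‖ * ‖b n‖ = ∑' n, ‖f n‖ * ‖y n‖ + ∑' n, ‖g n‖ * ‖z n‖ := by
  let a : ℕ → StrongDual ℝ X := fun n => if n % 2 = 0 then f (n / 2) else g (n / 2)
  let b : ℕ → Y := fun n => if n % 2 = 0 then y (n / 2) else z (n / 2)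
  have ha0 : ∀ k, a (2 * k) = f k := fun k => by simp [a]
  have hb0 : ∀ k, b (2 * k) = y k := fun k => by simp [b]
  have hk : ∀ k : ℕ, (2 * k + 1) / 2 = k := fun k => by omega
  have ha1 : ∀ k, a (2 * k + 1) = g k := fun k => by simp [a, hk]
  have hb1 : ∀ k, b (2 * k + 1) = z k := fun k => by simp [b, hk]
  have hs : HasSum (fun n => ‖a n‖ * ‖b n‖)
      (∑' n, ‖f n‖ * ‖y n‖ + ∑' n, ‖g n‖ * ‖z n‖) := by
    apply HasSum.even_add_odd
    · simp only [ha0, hb0]; exact h.1.hasSum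
    · simp only [ha1, hb1]; exact h'.1.hasSum
  refine ⟨a, b, ⟨hs.summable, fun x => ?_⟩, hs.tsum_eq⟩
  apply HasSum.even_add_odd (f := fun n => a n x • b n)
  · simp only [ha0, hb0]; exact h.2 x
  · simp only [ha1, hb1]; exact h'.2 x

lemma rep_rankOne (a : StrongDual ℝ X) (y : Y) :
    IsNucRep (a.smulRight y) (fun n => if n = 0 then a else 0) (fun _ => y) ∧
      ∑' n : ℕ, ‖(if n = 0 then a else 0 : StrongDual ℝ X)‖ * ‖y‖ = ‖a‖ * ‖y‖ := by
  have hs : HasSum (fun n : ℕ => ‖(if n = 0 then a else 0 : StrongDual ℝ X)‖ * ‖y‖)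
      (‖a‖ * ‖y‖) := by
    have := hasSum_single (f := fun n : ℕ => ‖(if n = 0 then a else 0 : StrongDual ℝ X)‖ * ‖y‖) 0
      (fun n hn => by simp [hn])
    simpa using this
  refine ⟨⟨hs.summable, fun x => ?_⟩, hs.tsum_eq⟩
  have := hasSum_single (f := fun n : ℕ => (if n = 0 then a else 0 : StrongDual ℝ X) x • y) 0
    (fun n hn => by simp [hn])
  simpa using this

/-- the nuclear operators as a subspace -/
def Nuc (X Y : Type*) [NormedAddCommGroup X] [NormedSpace ℝ X] [NormedAddCommGroup Y]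
    [NormedSpace ℝ Y] : Submodule ℝ (X →L[ℝ] Y) where
  carrier := {T | IsNuclear T}
  add_mem' := by
    rintro T S ⟨f, y, h⟩ ⟨g, z, h'⟩
    obtain ⟨a, b, hab, -⟩ := h.add h'
    exact ⟨a, b, hab⟩
  zero_mem' := ⟨fun _ => 0, fun _ => 0, by simpa using summable_zero, fun x => by
    simpa using hasSum_zero⟩
  smul_mem' := by
    rintro c T ⟨f, y, h⟩
    exact ⟨_, _, h.smul c⟩

lemma nucNorm_add_le {T S : X →L[ℝ] Y} (hT : IsNuclear T) (hS : IsNuclear S) :
    nucNorm (T + S) ≤ nucNorm T + nucNorm S := by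
  rw [← sub_le_iff_le_add]
  refine le_nucNorm hT fun f y h => ?_
  rw [sub_le_comm]
  refine le_nucNorm hS fun g z h' => ?_
  obtain ⟨a, b, hab, he⟩ := h.add h'
  have := nucNorm_le hab
  linarith

lemma nucNorm_smul_le {T : X →L[ℝ] Y} (hT : IsNuclear T) {c : ℝ} (hc : c ≠ 0) :
    nucNorm (c • T) ≤ |c| * nucNorm T := by
  have hc0 : 0 < |c| := abs_pos.2 hc
  rw [← div_le_iff₀' hc0]
  refine le_nucNorm hT fun f y h => ?_
  rw [div_le_iff₀' hc0, ← tsum_mul_left]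
  refine (nucNorm_le (h.smul c)).trans (le_of_eq ?_)
  simp_rw [norm_smul, mul_assoc, Real.norm_eq_abs]

lemma nucNorm_smul {T : X →L[ℝ] Y} (hT : IsNuclear T) {c : ℝ} (hc : c ≠ 0) :
    nucNorm (c • T) = |c| * nucNorm T := by
  refine le_antisymm (nucNorm_smul_le hT hc) ?_
  have h := nucNorm_smul_le ((Nuc X Y).smul_mem c hT) (inv_ne_zero hc)
  rw [smul_smul, inv_mul_cancel₀ hc, one_smul, abs_inv] at h
  have hc0 : 0 < |c| := abs_pos.2 hc
  rwa [le_inv_mul_iff₀ hc0] at h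

lemma nucNorm_zero : nucNorm (0 : X →L[ℝ] Y) = 0 := by
  have h := nucNorm_smul (Nuc X Y).zero_mem (two_ne_zero (α := ℝ))
  rw [smul_zero, abs_two] at h
  linarith

lemma IsNucRep.tail {T : X →L[ℝ] Y} {f : ℕ → StrongDual ℝ X} {y : ℕ → Y} (h : IsNucRep T f y)
    (m : ℕ) : IsNucRep (T - ∑ n ∈ Finset.range m, (f n).smulRight (y n))
      (fun n => f (n + m)) (fun n => y (n + m)) := by
  refine ⟨(summable_nat_add_iff (f := fun n => ‖f n‖ * ‖y n‖) m).2 h.1, fun x => ?_⟩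
  have := (hasSum_nat_add_iff' (f := fun n => f n x • y n) m).2 (h.2 x)
  simpa using this

/-- a norming functional for the nuclear norm and its bilinear form -/
lemma exists_norming {T : X →L[ℝ] Y} (hT : IsNuclear T) (hpos : 0 < nucNorm T) :
    ∃ (B : StrongDual ℝ X →ₗ[ℝ] Y →ₗ[ℝ] ℝ) (Λ : (X →L[ℝ] Y) → ℝ),
      (∀ a y, |B a y| ≤ ‖a‖ * ‖y‖) ∧
      (∀ S a b, IsNucRep S a b → HasSum (fun n => B (a n) (b n)) (Λ S)) ∧
      (∀ S S', IsNuclear S → IsNuclear S' → |Λ S - Λ S'| ≤ nucNorm (S - S')) ∧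
      Λ T = nucNorm T := by
  classical
  let t : Nuc X Y := ⟨T, hT⟩
  have ht : t ≠ 0 := by
    intro h
    have : T = 0 := congrArg Subtype.val h
    rw [this, nucNorm_zero] at hpos
    exact lt_irrefl _ hpos
  obtain ⟨g, hg1, hg2⟩ := exists_extension_of_le_sublinear
    (LinearPMap.mkSpanSingleton t (nucNorm T) ht) (fun S : Nuc X Y => nucNorm (S : X →L[ℝ] Y))
    (fun c hc S => by
      rw [Submodule.coe_smul, nucNorm_smul S.2 hc.ne', abs_of_pos hc])
    (fun S S' => nucNorm_add_le S.2 S'.2) (by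
      rintro ⟨x, hx⟩
      obtain ⟨c, rfl⟩ := Submodule.mem_span_singleton.1 hx
      rw [LinearPMap.mkSpanSingleton'_apply]
      by_cases hc : c = 0
      · subst hc; simp [nucNorm_zero]
      · change c • nucNorm T ≤ nucNorm (c • T)
        rw [nucNorm_smul hT hc, smul_eq_mul]
        exact mul_le_mul_of_nonneg_right (le_abs_self c) hpos.le)
  have hgt : g t = nucNorm T := by
    have := hg1 ⟨t, Submodule.mem_span_singleton_self t⟩
    rw [this]
    exact LinearPMap.mkSpanSingleton_apply ℝ ℝ ht _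
  have habs : ∀ S : Nuc X Y, |g S| ≤ nucNorm (S : X →L[ℝ] Y) := by
    intro S
    refine abs_le.2 ⟨?_, hg2 S⟩
    have h1 := hg2 ((-1 : ℝ) • S)
    rw [map_smul, Submodule.coe_smul, nucNorm_smul S.2 (by norm_num)] at h1
    simp at h1
    linarith
  let r : StrongDual ℝ X → Y → Nuc X Y := fun a y => ⟨a.smulRight y, _, _, (rep_rankOne a y).1⟩
  let B : StrongDual ℝ X →ₗ[ℝ] Y →ₗ[ℝ] ℝ := LinearMap.mk₂ ℝ (fun a y => g (r a y))
    (fun a a' y => by
      rw [← map_add]; congr 1; ext x; simp [r, add_smul])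
    (fun c a y => by
      rw [← map_smul]; congr 1; ext x; simp [r, mul_smul])
    (fun a y y' => by
      rw [← map_add]; congr 1; ext x; simp [r])
    (fun c a y => by
      rw [← map_smul]; congr 1; ext x; simp [r, smul_comm c])
  have hB : ∀ a y, |B a y| ≤ ‖a‖ * ‖y‖ := fun a y =>
    (habs (r a y)).trans ((nucNorm_le (rep_rankOne a y).1).trans (rep_rankOne a y).2.le)
  refine ⟨B, fun S => if h : IsNuclear S then g ⟨S, h⟩ else 0, hB, fun S a b h => ?_,
    fun S S' h h' => ?_, ?_⟩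
  · have hS : IsNuclear S := ⟨a, b, h⟩
    simp only [dif_pos hS]
    rw [hasSum_iff_tendsto_nat_of_summable_norm
      (Summable.of_nonneg_of_le (fun _ => norm_nonneg _) (fun n => hB _ _) h.1),
      tendsto_iff_norm_sub_tendsto_zero]
    refine squeeze_zero (fun _ => norm_nonneg _) (fun m => ?_)
      (tendsto_sum_nat_add fun n => ‖a n‖ * ‖b n‖)
    have h1 : ∑ n ∈ Finset.range m, B (a n) (b n) = g (∑ n ∈ Finset.range m, r (a n) (b n)) := by
      rw [map_sum]; rfl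
    rw [h1, norm_sub_rev, ← map_sub]
    refine (habs _).trans ?_
    have h2 : ((⟨S, hS⟩ - ∑ n ∈ Finset.range m, r (a n) (b n) : Nuc X Y) : X →L[ℝ] Y) =
        S - ∑ n ∈ Finset.range m, (a n).smulRight (b n) := by
      rw [Submodule.coe_sub, Submodule.coe_sum]
    rw [h2]
    exact nucNorm_le (h.tail m)
  · simp only [dif_pos h, dif_pos h']
    rw [← map_sub]
    exact habs _
  · simp only [dif_pos hT]
    exact hgt

/-- uniform convexity of `X` makes norming functionals on the dual unique -/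
lemma smooth_dual (hX : ∀ ε : ℝ, 0 < ε → ∃ δ : ℝ, 0 < δ ∧ ∀ x y : X, ‖x‖ ≤ 1 → ‖y‖ ≤ 1 →
      ε ≤ ‖x - y‖ → ‖x + y‖ ≤ 2 - δ) {a : StrongDual ℝ X} (ha : ‖a‖ = 1)
    (Φ Ψ : StrongDual ℝ X →ₗ[ℝ] ℝ) (hΦ : ∀ h, Φ h ≤ ‖h‖) (hΨ : ∀ h, Ψ h ≤ ‖h‖)
    (h1 : Φ a = 1) (h2 : Ψ a = 1) (h : StrongDual ℝ X) : Φ h ≤ Ψ h := by
  have hnear : ∀ (c : StrongDual ℝ X) (η : ℝ), 0 < η → ∃ x : X, ‖x‖ ≤ 1 ∧ ‖c‖ - η ≤ c x := by
    intro c η hη
    by_contra hcon
    push Not at hcon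
    have h0 := hcon 0 (by simp)
    rw [map_zero] at h0
    have h3 : ‖c‖ ≤ ‖c‖ - η := by
      refine ContinuousLinearMap.opNorm_le_of_unit_norm h0.le fun x hx => ?_
      rw [Real.norm_eq_abs, abs_le]
      have h4 := hcon x hx.le
      have h5 := hcon (-x) (by simp [hx])
      rw [map_neg] at h5
      constructor <;> linarith
    linarith
  refine le_of_forall_pos_le_add fun ε hε => ?_
  have hh := norm_nonneg h
  obtain ⟨δ, hδ, hd⟩ := hX (ε / (2 * (‖h‖ + 1))) (by positivity)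
  set t : ℝ := min (δ / (4 * (‖h‖ + 1) + 4)) (min 1 (ε / 4)) with ht
  have ht0 : 0 < t := by positivity
  have ht1 : t ≤ δ / (4 * (‖h‖ + 1) + 4) := min_le_left _ _
  have ht2 : t ≤ 1 := (min_le_right _ _).trans (min_le_left _ _)
  have ht3 : t ≤ ε / 4 := (min_le_right _ _).trans (min_le_right _ _)
  rw [le_div_iff₀ (by positivity)] at ht1
  obtain ⟨x, hx, hx'⟩ := hnear (a + t • h) (t ^ 2) (by positivity)
  obtain ⟨y, hy, hy'⟩ := hnear (a - t • h) (t ^ 2) (by positivity)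
  have e1 := hΦ (a + t • h)
  have e2 := hΨ (a - t • h)
  rw [map_add, map_smul, h1, smul_eq_mul] at e1
  rw [map_sub, map_smul, h2, smul_eq_mul] at e2
  simp only [add_apply, sub_apply, smul_apply, smul_eq_mul] at hx' hy'
  have b1 : ∀ z : X, |h z| ≤ ‖h‖ * ‖z‖ := fun z => h.le_opNorm z
  have b2 : ∀ z : X, a z ≤ ‖z‖ := fun z => by
    have := a.le_opNorm z
    rw [ha, one_mul] at this
    exact (le_abs_self _).trans this
  have b3 : -‖h‖ ≤ Φ h := by
    have := hΦ (-h); rw [map_neg, norm_neg] at this; linarith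
  have b4 : Ψ h ≤ ‖h‖ := hΨ h
  have b5 : |h x| ≤ ‖h‖ := (b1 x).trans (by nlinarith)
  have b6 : |h y| ≤ ‖h‖ := (b1 y).trans (by nlinarith)
  have b7 := b2 (x + y)
  rw [map_add] at b7
  have hxy : ‖x - y‖ < ε / (2 * (‖h‖ + 1)) := by
    by_contra hge
    push Not at hge
    have h3 := hd x y hx hy hge
    have c1 := (abs_le.1 b5).2
    have c2 := (abs_le.1 b6).1
    have c3 : t ^ 2 ≤ t := by nlinarith
    nlinarith
  have b8 := b1 (x - y)
  rw [map_sub] at b8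
  have b9 : ‖h‖ * ‖x - y‖ ≤ ε / 2 := by
    rw [lt_div_iff₀ (by positivity)] at hxy
    nlinarith [norm_nonneg (x - y)]
  have b10 : a x + a y ≤ 2 := by linarith [b2 x, b2 y]
  have b11 := (abs_le.1 (b8.trans b9)).2
  have key : t * (Φ h - Ψ h) ≤ t * (ε / 2 + 2 * t) := by nlinarith
  have := le_of_mul_le_mul_left key ht0
  linarith

/-- for a uniformly convex domain and a range with flat faces, an operator attaining its nuclear
norm is normed by a functional that is continuous for the operator norm -/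
lemma exists_norming_cont (hX : ∀ ε : ℝ, 0 < ε → ∃ δ : ℝ, 0 < δ ∧ ∀ x y : X, ‖x‖ ≤ 1 → ‖y‖ ≤ 1 →
      ε ≤ ‖x - y‖ → ‖x + y‖ ≤ 2 - δ)
    (hY : ∀ y : Y, ‖y‖ = 1 → ∃ (ι : Type) (_ : Fintype ι) (π : ι → StrongDual ℝ Y),
      ∀ v : Y, (∀ i, π i v = 0) → ‖v‖ ≤ 1 / 2 → ‖y + v‖ ≤ 1)
    {T : X →L[ℝ] Y} (hT : AttainsNuc T) (hpos : 0 < nucNorm T) :
    ∃ (B : StrongDual ℝ X →ₗ[ℝ] Y →ₗ[ℝ] ℝ) (Λ : (X →L[ℝ] Y) → ℝ) (C : ℝ),
      (∀ a y, |B a y| ≤ ‖a‖ * ‖y‖) ∧
      (∀ S a b, IsNucRep S a b → HasSum (fun n => B (a n) (b n)) (Λ S)) ∧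
      (∀ S S', IsNuclear S → IsNuclear S' → |Λ S - Λ S'| ≤ nucNorm (S - S')) ∧
      Λ T = nucNorm T ∧ ∀ S, IsNuclear S → |Λ S| ≤ C * ‖S‖ := by
  classical
  obtain ⟨f, y, hfy, hatt⟩ := hT
  obtain ⟨B, Λ, hB, hsum, hsub, hΛ⟩ := exists_norming ⟨f, y, hfy⟩ hpos
  have heq : ∀ n, B (f n) (y n) = ‖f n‖ * ‖y n‖ := by
    intro n
    by_contra hne
    have h1 := hasSum_lt (fun m => (le_abs_self _).trans (hB (f m) (y m)))
      (lt_of_le_of_ne ((le_abs_self _).trans (hB (f n) (y n))) hne) (hsum T f y hfy) hfy.1.hasSum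
    rw [hΛ, hatt] at h1
    exact lt_irrefl _ h1
  obtain ⟨n, hn⟩ : ∃ n, ‖f n‖ * ‖y n‖ ≠ 0 := by
    by_contra hcon
    push Not at hcon
    rw [hatt] at hpos
    simp [hcon] at hpos
  have hf0 : 0 < ‖f n‖ := lt_of_le_of_ne (norm_nonneg _) (left_ne_zero_of_mul hn).symm
  have hy0 : 0 < ‖y n‖ := lt_of_le_of_ne (norm_nonneg _) (right_ne_zero_of_mul hn).symm
  set a : StrongDual ℝ X := ‖f n‖⁻¹ • f n with ha
  set b : Y := ‖y n‖⁻¹ • y n with hb
  have ha1 : ‖a‖ = 1 := by rw [ha, norm_smul, norm_inv, norm_norm]; field_simp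
  have hb1 : ‖b‖ = 1 := by rw [hb, norm_smul, norm_inv, norm_norm]; field_simp
  have hab : B a b = 1 := by
    simp only [ha, hb, map_smul, LinearMap.smul_apply, smul_eq_mul, heq]; field_simp
  obtain ⟨ι, _, π, hπ⟩ := hY b hb1
  have hker0 : ∀ v : Y, (∀ i, π i v = 0) → ‖v‖ ≤ 1 / 2 → ∀ h, B h v ≤ 0 := by
    intro v hv hv1 h
    have p1 := hπ v hv hv1
    have p2 := hπ (-v) (fun i => by simp [hv i]) (by simpa using hv1)
    have q1 : ∀ h, B.flip (b + v) h ≤ ‖h‖ := fun h =>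
      (le_abs_self _).trans ((hB h _).trans (by nlinarith [norm_nonneg h]))
    have q2 : ∀ h, B.flip (b + -v) h ≤ ‖h‖ := fun h =>
      (le_abs_self _).trans ((hB h _).trans (by nlinarith [norm_nonneg h]))
    have r1 := q1 a
    have r2 := q2 a
    rw [LinearMap.flip_apply, map_add, hab, ha1] at r1
    rw [LinearMap.flip_apply, map_add, map_neg, hab, ha1] at r2
    have r3 : B a v = 0 := by linarith
    have := smooth_dual hX ha1 _ _ q1 q2 (by simp [hab, r3]) (by simp [hab, r3]) h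
    rw [LinearMap.flip_apply, LinearMap.flip_apply, map_add, map_add, map_neg] at this
    linarith
  have hker : ∀ v : Y, (∀ i, π i v = 0) → ∀ h, B h v = 0 := by
    intro v hv h
    have hc : (0 : ℝ) < (2 * (‖v‖ + 1))⁻¹ := by positivity
    have hn1 : ‖(2 * (‖v‖ + 1))⁻¹ • v‖ ≤ 1 / 2 := by
      rw [norm_smul, Real.norm_of_nonneg hc.le, inv_mul_le_iff₀ (by positivity)]
      linarith
    have s1 := hker0 _ (fun i => by simp [hv i]) hn1 h
    have s2 := hker0 _ (fun i => by simp [hv i]) hn1 (-h)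
    simp only [map_smul, map_neg, LinearMap.neg_apply, smul_eq_mul] at s1 s2
    have : (2 * (‖v‖ + 1))⁻¹ * B h v = 0 := by linarith
    exact (mul_eq_zero.1 this).resolve_left hc.ne'
  let P : Y →ₗ[ℝ] (ι → ℝ) := LinearMap.pi fun i => (π i).toLinearMap
  obtain ⟨σ, hσ⟩ := LinearMap.exists_rightInverse_of_surjective P.rangeRestrict
    (LinearMap.range_rangeRestrict P)
  obtain ⟨τ, hτ⟩ := LinearMap.exists_extend σ
  have hP : ∀ v : Y, P (τ (P v)) = P v := by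
    intro v
    have h1 : τ (P v) = σ ⟨P v, v, rfl⟩ := LinearMap.congr_fun hτ ⟨P v, v, rfl⟩
    have h2 := congrArg Subtype.val (LinearMap.congr_fun hσ ⟨P v, v, rfl⟩)
    rw [h1]; exact h2
  let w : ι → Y := fun i => τ (Pi.single i 1)
  have hBw : ∀ h v, B h v = ∑ i, π i v * B h (w i) := by
    intro h v
    have h1 := hker (v - τ (P v)) (fun i => by
      have := congrFun (hP v) i
      rw [map_sub]; exact sub_eq_zero.2 this.symm) h
    rw [map_sub, sub_eq_zero] at h1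
    rw [h1]
    conv_lhs => rw [pi_eq_sum_univ' (P v)]
    simp only [map_sum, map_smul, smul_eq_mul]
    rfl
  refine ⟨B, Λ, ∑ i, ‖π i‖ * ‖w i‖, hB, hsum, hsub, hΛ, ?_⟩
  rintro S ⟨c, d, hcd⟩
  have h1 : ∀ i, HasSum (fun m => π i (d m) * B (c m) (w i)) (B ((π i).comp S) (w i)) := by
    intro i
    let L : StrongDual ℝ X →L[ℝ] ℝ := (B.flip (w i)).mkContinuous ‖w i‖ fun h => by
      rw [mul_comm]; exact hB h (w i)
    have hs : Summable fun m => π i (d m) • c m := by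
      refine Summable.of_norm_bounded (hcd.1.mul_left ‖π i‖) fun m => ?_
      rw [norm_smul]
      have := (π i).le_opNorm (d m)
      have := norm_nonneg (c m)
      nlinarith
    have he : ∑' m, π i (d m) • c m = (π i).comp S := by
      ext x
      have h2 := hs.hasSum.mapL (ContinuousLinearMap.apply ℝ ℝ x)
      have h3 := (hcd.2 x).mapL (π i)
      simp only [ContinuousLinearMap.apply_apply, smul_eq_mul, map_smul] at h2 h3
      refine h2.unique ?_
      simpa [mul_comm] using h3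
    have h4 := hs.hasSum.mapL L
    rw [he] at h4
    simpa [L] using h4
  have h2 := hasSum_sum (s := Finset.univ) fun i _ => h1 i
  simp_rw [← hBw] at h2
  rw [(hsum S c d hcd).unique h2, Finset.sum_mul]
  refine (Finset.abs_sum_le_sum_abs _ _).trans (Finset.sum_le_sum fun i _ => (hB _ _).trans ?_)
  have := (π i).opNorm_comp_le S
  have := norm_nonneg (w i)
  nlinarith

end Pool.Agent.H996Z.Nuc
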