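import Pool.Agent.H996Z.Nuc.Space
import Pool.Agent.H812R2.AP.NoAP

/-! The data coming from Davie's construction. -/

namespace Pool.Agent.H996Z.Nuc

open Filter Topology Finset
open scoped ENNReal
open Pool.Agent.H812R2.AP Pool.Agent.BAPp

instance fact4 : Fact (1 ≤ (4 : ℝ≥0∞)) := ⟨by norm_num⟩

/-- the ambient uniformly convex space -/
abbrev L4 : Type := lp (fun _ : ℕ × ℕ => ℝ) 4

lemma four_pos : 0 < (4 : ℝ≥0∞).toReal := by norm_num

lemma hasSum_L4 (x : L4) : HasSum (fun c => x c ^ 4) (‖x‖ ^ 4) := by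
  have h := lp.hasSum_norm four_pos x
  have h4 : (4 : ℝ≥0∞).toReal = ((4 : ℕ) : ℝ) := by norm_num
  simp_rw [h4, Real.rpow_natCast, Real.norm_eq_abs, (show Even 4 by decide).pow_abs] at h
  exact h

lemma uc_L4 (ε : ℝ) (hε : 0 < ε) : ∃ δ : ℝ, 0 < δ ∧ ∀ x y : L4, ‖x‖ ≤ 1 → ‖y‖ ≤ 1 →
    ε ≤ ‖x - y‖ → ‖x + y‖ ≤ 2 - δ := by
  refine ⟨min 1 (ε ^ 4 / 32), by positivity, fun x y hx hy hxy => ?_⟩
  have h1 := hasSum_le (fun c => show (x + y) c ^ 4 + (x - y) c ^ 4 ≤ 8 * (x c ^ 4 + y c ^ 4) by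
      simp only [lp.coeFn_add, lp.coeFn_sub, Pi.add_apply, Pi.sub_apply]
      nlinarith [sq_nonneg (x c ^ 2 - y c ^ 2)])
    ((hasSum_L4 (x + y)).add (hasSum_L4 (x - y))) (((hasSum_L4 x).add (hasSum_L4 y)).mul_left 8)
  have h2 : ‖x‖ ^ 4 ≤ 1 := pow_le_one₀ (norm_nonneg _) hx
  have h3 : ‖y‖ ^ 4 ≤ 1 := pow_le_one₀ (norm_nonneg _) hy
  have h4 : ε ^ 4 ≤ ‖x - y‖ ^ 4 := pow_le_pow_left₀ hε.le hxy 4
  set δ := min 1 (ε ^ 4 / 32) with hδ
  have h5 : δ ≤ 1 := min_le_left _ _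
  have h6 : 0 < δ := by positivity
  by_contra hlt
  push Not at hlt
  have h7 : (2 - δ) ^ 4 < ‖x + y‖ ^ 4 := pow_lt_pow_left₀ hlt (by linarith) (by norm_num)
  have h8 : 16 - 32 * δ ≤ (2 - δ) ^ 4 := by nlinarith [sq_nonneg δ, mul_pos h6 h6]
  rcases le_total 1 (ε ^ 4 / 32) with h | h
  · have : 0 ≤ ‖x + y‖ ^ 4 := by positivity
    linarith
  · have : δ = ε ^ 4 / 32 := min_eq_right h
    linarith

lemma summable_levels (a : ℕ → ℝ) (ha : ∀ k, 0 ≤ a k) (hs : Summable a) :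
    Summable fun c : ℕ × ℕ => if c.2 < 2 ^ (c.1 + 2) then a c.1 / 2 ^ (c.1 + 2) else 0 := by
  have h1 : ∀ k, HasSum (fun g : ℕ => if g < 2 ^ (k + 2) then a k / 2 ^ (k + 2) else 0) (a k) := by
    intro k
    have h2 := hasSum_sum_of_ne_finset_zero (s := range (2 ^ (k + 2)))
      (f := fun g : ℕ => if g < 2 ^ (k + 2) then a k / 2 ^ (k + 2) else 0)
      (L := SummationFilter.unconditional ℕ) (fun g hg => if_neg (by simpa using hg))
    rw [Finset.sum_congr rfl fun g hg => if_pos (mem_range.1 hg), Finset.sum_const, card_range,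
      nsmul_eq_mul] at h2
    convert h2 using 1
    push_cast; field_simp
  rw [summable_prod_of_nonneg (fun c => by
    dsimp only
    have := ha c.1
    split_ifs <;> positivity)]
  refine ⟨fun k => (h1 k).summable, ?_⟩
  simp_rw [fun k => (h1 k).tsum_eq]
  exact hs

variable (s : Sys)

/-- coordinates on Davie's space -/
noncomputable def evE (c : ℕ × ℕ) : StrongDual ℝ (s.XT ℝ) :=
  LinearMap.mkContinuous
    { toFun := fun x => s.val ℝ x c
      map_add' := fun x y => by rw [map_add]; rfl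
      map_smul' := fun r x => by rw [map_smul]; rfl } 1 fun x => by
    rw [one_mul, ← s.norm_val ℝ]
    exact (s.val ℝ x).norm_coe_le_norm c

lemma evE_apply (c : ℕ × ℕ) (x : s.XT ℝ) : evE s c x = s.val ℝ x c := rfl

lemma abs_evE_le (c : ℕ × ℕ) (x : s.XT ℝ) : |evE s c x| ≤ ‖x‖ := by
  rw [← s.norm_val ℝ]
  exact (s.val ℝ x).norm_coe_le_norm c

lemma norm_le_evE (x : s.XT ℝ) (M : ℝ) (hM : 0 ≤ M) (h : ∀ c, |evE s c x| ≤ M) : ‖x‖ ≤ M := by
  rw [← s.norm_val ℝ]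
  exact (BoundedContinuousFunction.norm_le hM).2 h

lemma evE_zero (x : s.XT ℝ) (c : ℕ × ℕ) (hc : ¬ c.2 < 2 ^ (c.1 + 2)) : evE s c x = 0 := by
  refine s.X_induction (p := fun z => z c = 0) (fun l i _ => ?_) rfl (fun x y hx hy => ?_)
    (fun r x hx => ?_) ?_ (s.val_mem ℝ x)
  · rw [Sys.E_apply]; unfold ee; rw [if_neg hc]; rfl
  · rw [BoundedContinuousFunction.add_apply, hx, hy, add_zero]
  · rw [BoundedContinuousFunction.smul_apply, hx, smul_zero]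
  · exact isClosed_eq (continuous_eval_const c) continuous_const

lemma finite_evE (x : s.XT ℝ) : {c | 1 / 2 ≤ |evE s c x|}.Finite := by
  obtain ⟨K, hK⟩ := s.small (s.val_mem ℝ x) (1 / 4) (by norm_num)
  refine ((Set.finite_Iio K).prod (Set.finite_Iio (2 ^ (K + 2)))).subset ?_
  rintro ⟨k, g⟩ hc
  have h1 : 1 / 2 ≤ |evE s (k, g) x| := hc
  have h2 : k < K := by
    by_contra h
    have h3 : |evE s (k, g) x| ≤ 1 / 4 := hK k (not_lt.1 h) g
    linarith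
  refine ⟨h2, ?_⟩
  by_contra h
  have h3 : ¬ g < 2 ^ (k + 2) := fun h4 =>
    h (h4.trans_le (Nat.pow_le_pow_right (by norm_num) (by omega)))
  rw [evE_zero s x (k, g) h3] at h1
  norm_num at h1

lemma exists_G1 : ∃ G : s.XT ℝ →L[ℝ] L4, ∀ x c, G x c = (4 / 5 : ℝ) ^ c.1 * evE s c x := by
  have hw := summable_levels (fun k => 4 * (2 * (4 / 5 : ℝ) ^ 4) ^ k) (fun k => by positivity)
    ((summable_geometric_of_lt_one (by positivity) (by norm_num)).mul_left 4)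
  obtain ⟨W, hW⟩ := hw
  have hW0 : 0 ≤ W := hW.nonneg fun c => by split_ifs <;> positivity
  have h4 : (4 : ℝ≥0∞).toReal = ((4 : ℕ) : ℝ) := by norm_num
  have hb : ∀ (x : s.XT ℝ) (c : ℕ × ℕ), ‖(4 / 5 : ℝ) ^ c.1 * evE s c x‖ ^ (4 : ℝ≥0∞).toReal ≤
      (if c.2 < 2 ^ (c.1 + 2) then 4 * (2 * (4 / 5 : ℝ) ^ 4) ^ c.1 / 2 ^ (c.1 + 2) else 0) *
        ‖x‖ ^ 4 := by
    intro x c
    rw [h4, Real.rpow_natCast]
    split_ifs with hc
    · have h1 : 4 * (2 * (4 / 5 : ℝ) ^ 4) ^ c.1 / 2 ^ (c.1 + 2) = ((4 / 5 : ℝ) ^ c.1) ^ 4 := by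
        rw [mul_pow, ← pow_mul, ← pow_mul, mul_comm 4 c.1, pow_add]; field_simp; norm_num
      rw [h1, ← mul_pow, norm_mul, Real.norm_of_nonneg (by positivity)]
      exact pow_le_pow_left₀ (by positivity)
        (mul_le_mul_of_nonneg_left (abs_evE_le s c x) (by positivity)) 4
    · rw [evE_zero s x c hc]; simp
  have hsum : ∀ x : s.XT ℝ,
      Summable fun c : ℕ × ℕ => ‖(4 / 5 : ℝ) ^ c.1 * evE s c x‖ ^ (4 : ℝ≥0∞).toReal := fun x =>
    Summable.of_nonneg_of_le (fun c => by positivity) (hb x) (hW.summable.mul_right _)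
  let G0 : s.XT ℝ →ₗ[ℝ] L4 :=
    { toFun := fun x => ⟨fun c => (4 / 5 : ℝ) ^ c.1 * evE s c x, memℓp_gen (hsum x)⟩
      map_add' := fun x y => by
        ext c
        simp [mul_add]
      map_smul' := fun r x => by
        ext c
        simp [mul_left_comm] }
  refine ⟨G0.mkContinuous (W + 1) fun x => ?_, fun x c => rfl⟩
  refine lp.norm_le_of_tsum_le four_pos (by positivity) ?_
  refine (hasSum_le (hb x) (hsum x).hasSum (hW.mul_right _)).trans ?_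
  rw [h4, Real.rpow_natCast, mul_pow]
  refine mul_le_mul_of_nonneg_right ?_ (by positivity)
  have : W + 1 ≤ (W + 1) ^ 4 := le_self_pow₀ (by linarith) (by norm_num)
  linarith

lemma cc_nonneg (k : ℕ) : 0 ≤ Sys.cc k := by unfold Sys.cc; positivity

lemma summable_cc : Summable fun k : ℕ => (5 / 4 : ℝ) ^ k * Sys.cc k := by
  obtain ⟨M, hM⟩ := Sys.tendsto_cc.bddAbove_range
  refine Summable.of_nonneg_of_le (fun k => by have := cc_nonneg k; positivity) (fun k => ?_)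
    ((summable_geometric_of_lt_one (r := 15 / 16) (by norm_num) (by norm_num)).mul_left M)
  have h1 : (4 / 3 : ℝ) ^ k * Sys.cc k ≤ M := hM ⟨k, rfl⟩
  have h2 : (5 / 4 : ℝ) ^ k = (15 / 16) ^ k * (4 / 3) ^ k := by rw [← mul_pow]; norm_num
  rw [h2, mul_assoc, mul_comm M]
  exact mul_le_mul_of_nonneg_left h1 (by positivity)

lemma trace_formula (S : s.XT ℝ →L[ℝ] s.XT ℝ) {L : ℝ}
    (hL : Tendsto (fun k => s.beta k S) atTop (𝓝 L)) :
    HasSum (fun c : ℕ × ℕ => if c.2 < 2 ^ (c.1 + 2) then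
      (1 / 2 ^ (c.1 + 2) : ℝ) * evE s c (S (s.Phi ℝ c.1 c.2)) else 0) (L - s.beta 0 S) := by
  have hcc : Summable Sys.cc := Summable.of_nonneg_of_le cc_nonneg (fun k => by
    have h1 : (1 : ℝ) ≤ (5 / 4) ^ k := one_le_pow₀ (by norm_num)
    nlinarith [cc_nonneg k]) summable_cc
  have h0 := summable_levels (fun k => ‖S‖ * Sys.cc k)
    (fun k => by have := cc_nonneg k; positivity) (hcc.mul_left _)
  have hs : Summable (fun c : ℕ × ℕ => if c.2 < 2 ^ (c.1 + 2) then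
      (1 / 2 ^ (c.1 + 2) : ℝ) * evE s c (S (s.Phi ℝ c.1 c.2)) else 0) := by
    refine Summable.of_norm_bounded h0 fun c => ?_
    split_ifs with hc
    · rw [norm_mul, Real.norm_of_nonneg (by positivity), div_mul_eq_mul_div, one_mul]
      refine div_le_div_of_nonneg_right ((abs_evE_le s c _).trans ((S.le_opNorm _).trans ?_))
        (by positivity)
      exact mul_le_mul_of_nonneg_left (s.norm_Phi_le ℝ _ _ hc) (norm_nonneg _)
    · simp
  have h1 : HasSum (fun k => s.beta (k + 1) S - s.beta k S) (∑' c : ℕ × ℕ,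
      if c.2 < 2 ^ (c.1 + 2) then
        (1 / 2 ^ (c.1 + 2) : ℝ) * evE s c (S (s.Phi ℝ c.1 c.2)) else 0) := by
    refine hs.hasSum.prod_fiberwise fun k => ?_
    have h2 := hasSum_sum_of_ne_finset_zero (s := range (2 ^ (k + 2)))
      (f := fun g : ℕ => if g < 2 ^ (k + 2) then
        (1 / 2 ^ (k + 2) : ℝ) * evE s (k, g) (S (s.Phi ℝ k g)) else 0)
      (L := SummationFilter.unconditional ℕ) (fun g hg => if_neg (by simpa using hg))
    rw [Finset.sum_congr rfl fun g hg => if_pos (mem_range.1 hg), ← Finset.mul_sum] at h2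
    rw [s.beta_succ]
    exact h2
  have h2 := h1.tendsto_sum_nat
  simp_rw [Finset.sum_range_sub (fun k => s.beta k S)] at h2
  rw [← tendsto_nhds_unique h2 (hL.sub_const _)]
  exact hs.hasSum

lemma beta_zero (S : s.XT ℝ →L[ℝ] s.XT ℝ) : s.beta 0 S =
    (1 / 4 : ℝ) * ∑ g ∈ range 4, s.sg 0 0 g * evE s (0, g) (S (s.EX ℝ 0 0)) := by
  unfold Sys.beta Sys.al
  simp [evE_apply]
  norm_num

lemma data_of {X : Type} [NormedAddCommGroup X] [NormedSpace ℝ X] (G0 : s.XT ℝ →L[ℝ] X)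
    (hd : DenseRange G0) (evX : ℕ × ℕ → StrongDual ℝ X) (hevX1 : ∀ c, ‖evX c‖ ≤ 1)
    (hG : ∀ c v, evX c (G0 v) = (4 / 5 : ℝ) ^ c.1 * evE s c v) :
    ∃ (φ : ℕ → StrongDual ℝ X) (e : ℕ → s.XT ℝ),
      (Summable fun i => ‖φ i‖ * ‖e i‖) ∧ (∀ x, HasSum (fun i => φ i x • e i) 0) ∧
      HasSum (fun i => φ i (G0 (e i))) 1 := by
  obtain ⟨φ', hφ', hφ1⟩ : ∃ φ' : ℕ × ℕ → StrongDual ℝ X, (∀ c v, φ' c (G0 v) =
      if c.2 < 2 ^ (c.1 + 2) then (1 / 2 ^ (c.1 + 2) : ℝ) * evE s c v else 0) ∧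
      ∀ c, ‖φ' c‖ * ‖s.Phi ℝ c.1 c.2‖ ≤
        if c.2 < 2 ^ (c.1 + 2) then (5 / 4 : ℝ) ^ c.1 * Sys.cc c.1 / 2 ^ (c.1 + 2) else 0 := by
    refine ⟨fun c => if c.2 < 2 ^ (c.1 + 2) then ((5 / 4 : ℝ) ^ c.1 / 2 ^ (c.1 + 2)) • evX c else 0,
      fun c v => ?_, fun c => ?_⟩
    · dsimp only
      split_ifs
      · rw [smul_apply, hG, smul_eq_mul, ← mul_assoc]
        congr 1
        rw [div_mul_eq_mul_div, ← mul_pow]; norm_num
      · rfl
    · dsimp only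
      split_ifs with hc
      · rw [norm_smul, Real.norm_of_nonneg (by positivity), mul_div_right_comm]
        have h1 := hevX1 c
        have h2 := s.norm_Phi_le ℝ _ _ hc
        have h3 : (0 : ℝ) ≤ (5 / 4) ^ c.1 / 2 ^ (c.1 + 2) := by positivity
        rw [mul_assoc]
        refine mul_le_mul_of_nonneg_left ?_ h3
        nlinarith [norm_nonneg (evX c), norm_nonneg (s.Phi ℝ c.1 c.2)]
      · simp
  obtain ⟨φ0, hφ0⟩ : ∃ φ0 : StrongDual ℝ X,
      ∀ v, φ0 (G0 v) = (1 / 4 : ℝ) * ∑ g ∈ range 4, s.sg 0 0 g * evE s (0, g) v := by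
    refine ⟨(1 / 4 : ℝ) • ∑ g ∈ range 4, s.sg 0 0 g • evX (0, g), fun v => ?_⟩
    simp only [smul_apply, _root_.sum_apply, hG, smul_eq_mul, pow_zero, one_mul]
  obtain ⟨q⟩ : Nonempty (ℕ ≃ ℕ × ℕ) := ⟨(Denumerable.eqv (ℕ × ℕ)).symm⟩
  obtain ⟨φ, hφa, hφb⟩ : ∃ φ : ℕ → StrongDual ℝ X, φ 0 = φ0 ∧ ∀ m, φ (m + 1) = φ' (q m) :=
    ⟨fun n => Nat.casesOn n φ0 fun m => φ' (q m), rfl, fun _ => rfl⟩
  obtain ⟨e, hea, heb⟩ : ∃ e : ℕ → s.XT ℝ, e 0 = s.EX ℝ 0 0 ∧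
      ∀ m, e (m + 1) = s.Phi ℝ (q m).1 (q m).2 :=
    ⟨fun n => Nat.casesOn n (s.EX ℝ 0 0) fun m => s.Phi ℝ (q m).1 (q m).2, rfl, fun _ => rfl⟩
  have hs : Summable fun i => ‖φ i‖ * ‖e i‖ := by
    have hl := summable_levels (fun k => (5 / 4 : ℝ) ^ k * Sys.cc k)
      (fun k => mul_nonneg (by positivity) (cc_nonneg k)) summable_cc
    have h0 : Summable fun c : ℕ × ℕ => ‖φ' c‖ * ‖s.Phi ℝ c.1 c.2‖ :=
      Summable.of_nonneg_of_le (fun c => mul_nonneg (norm_nonneg _) (norm_nonneg _)) hφ1 hl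
    obtain ⟨F, hF⟩ : ∃ F : ℕ × ℕ → ℝ, F = fun c : ℕ × ℕ => ‖φ' c‖ * ‖s.Phi ℝ c.1 c.2‖ :=
      ⟨_, rfl⟩
    rw [← hF] at h0
    have h1 : Summable (F ∘ q) := q.summable_iff.2 h0
    rw [← summable_nat_add_iff 1]
    refine h1.congr fun m => ?_
    rw [hφb, heb, hF]
    rfl
  have hall : ∀ (S : s.XT ℝ →L[ℝ] s.XT ℝ) (L : ℝ), Tendsto (fun k => s.beta k S) atTop (𝓝 L) →
      HasSum (fun i => φ i (G0 (S (e i)))) L := by
    intro S L hL
    have h3 := q.hasSum_iff.2 (trace_formula s S hL)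
    have h4 : HasSum (fun i => φ (i + 1) (G0 (S (e (i + 1))))) (L - s.beta 0 S) := by
      simp only [hφb, heb, hφ']
      exact h3
    have h5 := HasSum.zero_add (f := fun i => φ i (G0 (S (e i)))) h4
    have h6 : φ 0 (G0 (S (e 0))) = s.beta 0 S := by
      rw [beta_zero, hφa, hea]
      exact hφ0 _
    rw [h6, add_sub_cancel] at h5
    exact h5
  refine ⟨φ, e, hs, ?_, ?_⟩
  · obtain ⟨U, hU⟩ := exists_rep φ e hs
    have h1 : ∀ v, U (G0 v) = 0 := by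
      intro v
      refine NormedSpace.eq_zero_of_forall_dual_eq_zero ℝ fun f => ?_
      have h2 := (hU.2 (G0 v)).mapL f
      have hfin : FiniteDimensional ℝ
          (LinearMap.range (f.smulRight v : s.XT ℝ →ₗ[ℝ] s.XT ℝ)) := by
        refine Submodule.finiteDimensional_of_le (S₂ := Submodule.span ℝ {v}) ?_
        rintro _ ⟨y, rfl⟩
        exact Submodule.smul_mem _ _ (Submodule.mem_span_singleton_self v)
      have h3 := hall (f.smulRight v) 0 (s.tendsto_beta _ hfin)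
      simp only [ContinuousLinearMap.smulRight_apply, map_smul, smul_eq_mul] at h2 h3
      simp_rw [mul_comm] at h3
      exact h2.unique h3
    intro x
    have h2 : U x = 0 := hd.induction_on x (isClosed_eq U.continuous continuous_const) h1
    rw [← h2]
    exact hU.2 x
  · exact hall 1 1 (by simp only [s.beta_one]; exact tendsto_const_nhds)

lemma exists_X : ∃ (X : Type) (_ : NormedAddCommGroup X) (_ : NormedSpace ℝ X)
    (_ : CompleteSpace X), (∀ ε : ℝ, 0 < ε → ∃ δ : ℝ, 0 < δ ∧ ∀ x y : X, ‖x‖ ≤ 1 → ‖y‖ ≤ 1 →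
      ε ≤ ‖x - y‖ → ‖x + y‖ ≤ 2 - δ) ∧
    ∃ (G0 : s.XT ℝ →L[ℝ] X) (evX : ℕ × ℕ → StrongDual ℝ X), DenseRange G0 ∧ (∀ c, ‖evX c‖ ≤ 1) ∧
      ∀ c v, evX c (G0 v) = (4 / 5 : ℝ) ^ c.1 * evE s c v := by
  obtain ⟨G, hG⟩ := exists_G1 s
  obtain ⟨X, hX⟩ : ∃ X : Submodule ℝ L4, X = (LinearMap.range G.toLinearMap).topologicalClosure :=
    ⟨_, rfl⟩
  have hXc : CompleteSpace X := by
    rw [hX]; exact (Submodule.isClosed_topologicalClosure _).completeSpace_coe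
  have hmem : ∀ v, G v ∈ X := fun v => by
    rw [hX]; exact Submodule.le_topologicalClosure _ ⟨v, rfl⟩
  obtain ⟨evL, hevL, hevL1⟩ : ∃ evL : ℕ × ℕ → StrongDual ℝ L4,
      (∀ c x, evL c x = x c) ∧ ∀ c x, ‖evL c x‖ ≤ ‖x‖ := by
    have h1 : ∀ (c : ℕ × ℕ) (x : L4), ‖x c‖ ≤ ‖x‖ := fun c x =>
      lp.norm_apply_le_norm (by norm_num) x c
    refine ⟨fun c => LinearMap.mkContinuous
      { toFun := fun x => x c
        map_add' := fun x y => rfl
        map_smul' := fun r x => rfl } 1 fun x => ?_, fun c x => rfl, h1⟩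
    rw [one_mul]
    exact h1 c x
  refine ⟨X, inferInstance, inferInstance, hXc, fun ε hε => ?_, G.codRestrict X hmem,
    fun c => (evL c).comp X.subtypeL, ?_, fun c => ?_, fun c v => ?_⟩
  · obtain ⟨δ, hδ, h⟩ := uc_L4 ε hε
    exact ⟨δ, hδ, fun x y hx hy hxy => h x y hx hy hxy⟩
  · intro x
    have hx : (x : L4) ∈ closure (LinearMap.range G.toLinearMap : Set L4) := by
      rw [← Submodule.topologicalClosure_coe, ← hX]; exact x.2
    obtain ⟨u, hu, hux⟩ := mem_closure_iff_seq_limit.1 hx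
    choose v hv using hu
    refine mem_closure_iff_seq_limit.2 ⟨fun n => G.codRestrict X hmem (v n), fun n => ⟨_, rfl⟩, ?_⟩
    rw [tendsto_subtype_rng]
    exact hux.congr fun n => (hv n).symm
  · refine ContinuousLinearMap.opNorm_le_bound _ zero_le_one fun x => ?_
    rw [one_mul, ContinuousLinearMap.comp_apply, Submodule.subtypeL_apply, ← Submodule.norm_coe]
    exact hevL1 c _
  · rw [ContinuousLinearMap.comp_apply, Submodule.subtypeL_apply, hevL,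
      ContinuousLinearMap.coe_codRestrict_apply, hG]

theorem main : ∃ (X Y : Type) (_ : NormedAddCommGroup X) (_ : NormedSpace ℝ X)
    (_ : CompleteSpace X) (_ : NormedAddCommGroup Y) (_ : NormedSpace ℝ Y) (_ : CompleteSpace Y),
    ∃ T : X →L[ℝ] Y, IsNuclear T ∧ ∃ δ : ℝ, 0 < δ ∧
      ∀ S : X →L[ℝ] Y, AttainsNuc S → δ ≤ nucNorm (T - S) := by
  obtain ⟨s⟩ := exists_sys
  obtain ⟨X, _, _, hXc, hX, G0, evX, hd, h1, h2⟩ := exists_X s
  obtain ⟨φ, e, hs, hz, htr⟩ := data_of s G0 hd evX h1 h2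
  obtain ⟨θ, h⟩ := not_dense hX (evE s) (norm_le_evE s) (abs_evE_le s) (finite_evE s) φ e hs hz
    G0 htr
  exact ⟨X, YY e θ, inferInstance, inferInstance, hXc, inferInstance, inferInstance,
    (isClosed_YY e θ).completeSpace_coe, h⟩

end Pool.Agent.H996Z.Nuc
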