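import Mathlib

/-! Nuclear operators, the nuclear norm and its attainment (real scalars). -/

namespace Pool.Agent.H996Z.Nuc

variable {X Y : Type*} [NormedAddCommGroup X] [NormedSpace ℝ X] [NormedAddCommGroup Y]
  [NormedSpace ℝ Y]

/-- `(f, y)` is a nuclear representation of `T` -/
def IsNucRep (T : X →L[ℝ] Y) (f : ℕ → StrongDual ℝ X) (y : ℕ → Y) : Prop :=
  Summable (fun n => ‖f n‖ * ‖y n‖) ∧ ∀ x, HasSum (fun n => f n x • y n) (T x)

/-- `T` is nuclear -/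
def IsNuclear (T : X →L[ℝ] Y) : Prop := ∃ f y, IsNucRep T f y

/-- the nuclear norm -/
noncomputable def nucNorm (T : X →L[ℝ] Y) : ℝ :=
  sInf {r : ℝ | ∃ f y, IsNucRep T f y ∧ r = ∑' n, ‖f n‖ * ‖y n‖}

/-- `T` is nuclear and attains its nuclear norm -/
def AttainsNuc (T : X →L[ℝ] Y) : Prop :=
  ∃ f y, IsNucRep T f y ∧ nucNorm T = ∑' n, ‖f n‖ * ‖y n‖

end Pool.Agent.H996Z.Nuc
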