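import Pool.Agent.H996Z.Nuc.Basic

/-! The range space: a weighted space of convergent sequences through finite-dimensional subspaces. -/

namespace Pool.Agent.H996Z.Nuc

open Filter Topology
open scoped ZeroAtInfty

variable {E : Type} [NormedAddCommGroup E] [NormedSpace ℝ E]

lemma norm_coord_le (y : C₀(ℕ, E)) (n : ℕ) : ‖y n‖ ≤ ‖y‖ := by
  rw [← ZeroAtInftyContinuousMap.norm_toBCF_eq_norm]
  exact y.toBCF.norm_coe_le_norm n

lemma norm_le_of_coord {y : C₀(ℕ, E)} {C : ℝ} (hC : 0 ≤ C) (h : ∀ n, ‖y n‖ ≤ C) : ‖y‖ ≤ C := by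
  rw [← ZeroAtInftyContinuousMap.norm_toBCF_eq_norm]
  exact (BoundedContinuousFunction.norm_le hC).2 h

lemma tendsto_coord (y : C₀(ℕ, E)) : Tendsto (fun n => y n) atTop (𝓝 0) := by
  have := y.zero_at_infty'
  rwa [cocompact_eq_cofinite, Nat.cofinite_eq_atTop] at this

/-- evaluation -/
noncomputable def evN (n : ℕ) : C₀(ℕ, E) →L[ℝ] E :=
  LinearMap.mkContinuous
    { toFun := fun y => y n
      map_add' := fun _ _ => rfl
      map_smul' := fun _ _ => rfl } 1 fun y => by simpa using norm_coord_le y n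

lemma evN_apply (n : ℕ) (y : C₀(ℕ, E)) : evN n y = y n := rfl

/-- the finite-dimensional subspaces -/
def En (e : ℕ → E) (n : ℕ) : Submodule ℝ E := Submodule.span ℝ (e '' Set.Iic n)

instance (e : ℕ → E) (n : ℕ) : FiniteDimensional ℝ (En e n) :=
  FiniteDimensional.span_of_finite ℝ ((Set.finite_Iic n).image e)

lemma mem_En (e : ℕ → E) {i n : ℕ} (h : i ≤ n) : e i ∈ En e n :=
  Submodule.subset_span ⟨i, h, rfl⟩

/-- the `n`-th term of the convergent sequence -/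
noncomputable def xN (θ : ℝ) (n : ℕ) : C₀(ℕ, E) →L[ℝ] E := evN 0 + θ⁻¹ • evN (n + 1)

lemma xN_apply (θ : ℝ) (n : ℕ) (y : C₀(ℕ, E)) : xN θ n y = y 0 + θ⁻¹ • y (n + 1) := rfl

/-- the range space -/
noncomputable def YY (e : ℕ → E) (θ : ℝ) : Submodule ℝ C₀(ℕ, E) :=
  ⨅ n, (En e n).comap (xN θ n).toLinearMap

lemma mem_YY {e : ℕ → E} {θ : ℝ} {y : C₀(ℕ, E)} : y ∈ YY e θ ↔ ∀ n, xN θ n y ∈ En e n := by
  simp [YY, Submodule.mem_iInf]

lemma isClosed_YY (e : ℕ → E) (θ : ℝ) : IsClosed (YY e θ : Set C₀(ℕ, E)) := by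
  have : (YY e θ : Set C₀(ℕ, E)) = ⋂ n, (xN θ n) ⁻¹' (En e n : Set E) := by
    ext y; simp [mem_YY]
  rw [this]
  exact isClosed_iInter fun n =>
    (Submodule.closed_of_finiteDimensional _).preimage (xN θ n).continuous

/-- lifts -/
noncomputable def lift (θ : ℝ) (m : ℕ) (v : E) : C₀(ℕ, E) where
  toFun n := if n = 0 then v else if n ≤ m then -(θ • v) else 0
  continuous_toFun := continuous_of_discreteTopology
  zero_at_infty' := by
    rw [cocompact_eq_cofinite, Nat.cofinite_eq_atTop]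
    refine tendsto_const_nhds.congr' ?_
    filter_upwards [eventually_gt_atTop m] with n hn
    rw [if_neg (by omega), if_neg (by omega)]

lemma lift_zero (θ : ℝ) (m : ℕ) (v : E) : lift θ m v 0 = v := rfl

lemma lift_succ (θ : ℝ) (m n : ℕ) (v : E) :
    lift θ m v (n + 1) = if n < m then -(θ • v) else 0 := by
  change (if n + 1 = 0 then v else if n + 1 ≤ m then -(θ • v) else 0) = _
  rw [if_neg (by omega)]
  rfl

lemma lift_mem (e : ℕ → E) {θ : ℝ} (hθ : θ ≠ 0) {i m : ℕ} (h : i ≤ m) :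
    lift θ m (e i) ∈ YY e θ := by
  rw [mem_YY]
  intro n
  rw [xN_apply, lift_zero, lift_succ]
  split_ifs with hn
  · rw [smul_neg, smul_smul, inv_mul_cancel₀ hθ, one_smul, add_neg_cancel]
    exact Submodule.zero_mem _
  · rw [smul_zero, add_zero]
    exact mem_En e (by omega)

lemma norm_lift_le {θ : ℝ} (h0 : 0 ≤ θ) (h1 : θ ≤ 1) (m : ℕ) (v : E) : ‖lift θ m v‖ ≤ ‖v‖ := by
  refine norm_le_of_coord (norm_nonneg _) fun n => ?_
  cases n with
  | zero => rw [lift_zero]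
  | succ n =>
    rw [lift_succ]
    split_ifs
    · rw [norm_neg, norm_smul, Real.norm_of_nonneg h0]
      nlinarith [norm_nonneg v]
    · simp

lemma norm_lift_sub_le {θ : ℝ} (h0 : 0 ≤ θ) (m m' : ℕ) (v : E) :
    ‖lift θ m v - lift θ m' v‖ ≤ θ * ‖v‖ := by
  refine norm_le_of_coord (by positivity) fun n => ?_
  change ‖lift θ m v n - lift θ m' v n‖ ≤ _
  have hp : 0 ≤ θ * ‖v‖ := by positivity
  cases n with
  | zero => rw [lift_zero, lift_zero]; simpa using hp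
  | succ n =>
    rw [lift_succ, lift_succ]
    split_ifs <;> simp [norm_smul, abs_of_nonneg h0, hp]

/-- flat faces -/
lemma flat_YY {I : Type} (ev : I → StrongDual ℝ E)
    (h1 : ∀ (v : E) (M : ℝ), 0 ≤ M → (∀ c, |ev c v| ≤ M) → ‖v‖ ≤ M)
    (h2 : ∀ c v, |ev c v| ≤ ‖v‖) (h3 : ∀ v, {c | 1 / 2 ≤ |ev c v|}.Finite) (e : ℕ → E) (θ : ℝ)
    (y : YY e θ) (hy : ‖y‖ = 1) : ∃ (ι : Type) (_ : Fintype ι) (π : ι → StrongDual ℝ (YY e θ)),
      ∀ v : YY e θ, (∀ i, π i v = 0) → ‖v‖ ≤ 1 / 2 → ‖y + v‖ ≤ 1 := by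
  have hfin : {p : ℕ × I | 1 / 2 ≤ |ev p.2 ((y : C₀(ℕ, E)) p.1)|}.Finite := by
    obtain ⟨N, hN⟩ := Metric.tendsto_atTop.1 (tendsto_coord (y : C₀(ℕ, E))) (1 / 2) (by norm_num)
    refine ((Set.finite_Iio N).biUnion fun n _ =>
      (h3 ((y : C₀(ℕ, E)) n)).image (fun c => (n, c))).subset ?_
    rintro ⟨n, c⟩ hp
    simp only [Set.mem_iUnion]
    refine ⟨n, ?_, c, hp, rfl⟩
    by_contra hn
    have h4 := hN n (not_lt.1 hn)
    rw [dist_zero_right] at h4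
    have h5 : 1 / 2 ≤ |ev c ((y : C₀(ℕ, E)) n)| := hp
    linarith [h2 c ((y : C₀(ℕ, E)) n)]
  refine ⟨hfin.toFinset, inferInstance,
    fun p => (ev p.1.2).comp ((evN p.1.1).comp (YY e θ).subtypeL), fun v hv hv1 => ?_⟩
  refine norm_le_of_coord zero_le_one fun n => h1 _ _ zero_le_one fun c => ?_
  change |ev c ((y : C₀(ℕ, E)) n + (v : C₀(ℕ, E)) n)| ≤ 1
  rw [map_add]
  by_cases hp : (n, c) ∈ hfin.toFinset
  · have h4 : ev c ((v : C₀(ℕ, E)) n) = 0 := hv ⟨(n, c), hp⟩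
    rw [h4, add_zero]
    exact (h2 _ _).trans ((norm_coord_le _ n).trans hy.le)
  · have h4 : |ev c ((y : C₀(ℕ, E)) n)| < 1 / 2 := by simpa using hp
    have h5 : |ev c ((v : C₀(ℕ, E)) n)| ≤ 1 / 2 :=
      (h2 _ _).trans ((norm_coord_le _ n).trans hv1)
    exact (abs_add_le _ _).trans (by linarith)

section trace

variable {X Y : Type*} [NormedAddCommGroup X] [NormedSpace ℝ X] [NormedAddCommGroup Y]
  [NormedSpace ℝ Y]

lemma summable_pair {T : X →L[ℝ] Y} {a : ℕ → StrongDual ℝ X} {b : ℕ → Y} (h : IsNucRep T a b)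
    (W : Y →L[ℝ] X) (n : ℕ) : ‖a n (W (b n))‖ ≤ ‖W‖ * (‖a n‖ * ‖b n‖) := by
  have h1 := (a n).le_opNorm (W (b n))
  have h2 := W.le_opNorm (b n)
  have h3 := norm_nonneg (a n)
  nlinarith

lemma trace_fin {T : X →L[ℝ] Y} {a : ℕ → StrongDual ℝ X} {b : ℕ → Y} (h : IsNucRep T a b)
    {ι : Type*} [Fintype ι] (f : ι → StrongDual ℝ Y) (w : ι → X) (W : Y →L[ℝ] X)
    (hW : ∀ y, W y = ∑ l, f l y • w l) : ∑' n, a n (W (b n)) = ∑ l, f l (T (w l)) := by
  have h1 := hasSum_sum (s := Finset.univ) fun l _ => (h.2 (w l)).mapL (f l)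
  refine HasSum.tsum_eq ?_
  have h2 : (fun n => a n (W (b n))) = fun n => ∑ l, f l (a n (w l) • b n) := by
    ext n
    rw [hW]
    simp [mul_comm]
  rw [h2]
  exact h1

lemma trace_lim {T : X →L[ℝ] Y} {a : ℕ → StrongDual ℝ X} {b : ℕ → Y} (h : IsNucRep T a b)
    (W : ℕ → Y →L[ℝ] X) (G : Y →L[ℝ] X) {C : ℝ} (hC : ∀ m, ‖W m‖ ≤ C)
    (hG : ∀ y, Tendsto (fun m => W m y) atTop (𝓝 (G y))) :
    Tendsto (fun m => ∑' n, a n (W m (b n))) atTop (𝓝 (∑' n, a n (G (b n)))) := by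
  refine tendsto_tsum_of_dominated_convergence (h.1.mul_left C)
    (fun n => ((a n).continuous.tendsto _).comp (hG _)) (Eventually.of_forall fun m n => ?_)
  exact (summable_pair h (W m) n).trans (mul_le_mul_of_nonneg_right (hC m) (by positivity))

lemma far_from_attaining
    (hX : ∀ ε : ℝ, 0 < ε → ∃ δ : ℝ, 0 < δ ∧ ∀ x y : X, ‖x‖ ≤ 1 → ‖y‖ ≤ 1 →
      ε ≤ ‖x - y‖ → ‖x + y‖ ≤ 2 - δ)
    (hY : ∀ y : Y, ‖y‖ = 1 → ∃ (ι : Type) (_ : Fintype ι) (π : ι → StrongDual ℝ Y),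
      ∀ v : Y, (∀ i, π i v = 0) → ‖v‖ ≤ 1 / 2 → ‖y + v‖ ≤ 1)
    (T : ℕ → X →L[ℝ] Y) (φ : ℕ → StrongDual ℝ X) (l : ℕ → ℕ → Y)
    (hT : ∀ M, IsNucRep (T M) φ (l M)) (hT0 : Tendsto (fun M => ‖T M‖) atTop (𝓝 0))
    {c K : ℝ} (hc0 : 0 < c) (hN : c ≤ nucNorm (T 0)) (u : ℕ → ℝ) (hu : HasSum u K)
    (hK : K ≤ c / 2) (hl : ∀ M i, ‖φ i‖ * ‖l 0 i - l M i‖ ≤ u i)
    (S : X →L[ℝ] Y) (hS : AttainsNuc S) : c / 8 ≤ nucNorm (T 0 - S) := by
  by_contra hlt
  push Not at hlt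
  have hSn : IsNuclear S := let ⟨f, y, h, _⟩ := hS; ⟨f, y, h⟩
  have hTn0 : IsNuclear (T 0) := ⟨_, _, hT 0⟩
  have h4 := nucNorm_add_le ((Nuc X Y).sub_mem hTn0 hSn) hSn
  rw [sub_add_cancel] at h4
  obtain ⟨B, Λ, C, hB, hsum, hsub, hΛ, hcont⟩ := exists_norming_cont hX hY hS (by linarith)
  have h5 : ∀ M, Λ (T 0) - Λ (T M) ≤ K := by
    intro M
    refine hasSum_le (fun i => ?_) ((hsum _ _ _ (hT 0)).sub (hsum _ _ _ (hT M))) hu
    rw [← map_sub]
    exact (le_abs_self _).trans ((hB _ _).trans (hl M i))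
  have h6 : Λ (T 0) ≤ K := by
    have h7 : Tendsto (fun M => K + C * ‖T M‖) atTop (𝓝 (K + C * 0)) :=
      (hT0.const_mul C).const_add _
    rw [mul_zero, add_zero] at h7
    refine ge_of_tendsto' h7 fun M => ?_
    have := (abs_le.1 (hcont (T M) ⟨_, _, hT M⟩)).2
    linarith [h5 M]
  have h7 := (abs_le.1 (hsub (T 0) S hTn0 hSn)).1
  linarith

lemma exists_rep [CompleteSpace Y] (φ : ℕ → StrongDual ℝ X) (l : ℕ → Y)
    (h : Summable fun i => ‖φ i‖ * ‖l i‖) : ∃ T : X →L[ℝ] Y, IsNucRep T φ l := by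
  have hsT : Summable fun i => (φ i).smulRight (l i) :=
    Summable.of_norm_bounded h fun i => by rw [ContinuousLinearMap.norm_smulRight_apply]
  exact ⟨∑' i, (φ i).smulRight (l i), h, fun x => by
    simpa using hsT.hasSum.mapL (ContinuousLinearMap.apply ℝ Y x)⟩

lemma trace_indep {T : X →L[ℝ] Y} {a a' : ℕ → StrongDual ℝ X} {b b' : ℕ → Y}
    (h : IsNucRep T a b) (h' : IsNucRep T a' b') (F : Submodule ℝ E) [FiniteDimensional ℝ F]
    (x : Y →L[ℝ] E) (hx : ∀ y, x y ∈ F) (G0 : E →L[ℝ] X) :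
    ∑' n, a n (G0.comp x (b n)) = ∑' n, a' n (G0.comp x (b' n)) := by
  let β := Module.finBasis ℝ F
  let x' : Y →L[ℝ] F := x.codRestrict F hx
  let f : Fin (Module.finrank ℝ F) → StrongDual ℝ Y := fun i =>
    (LinearMap.toContinuousLinearMap (β.coord i)).comp x'
  have h4 : ∀ y, G0.comp x y = ∑ i, f i y • G0 (β i) := by
    intro y
    have h5 : G0.comp x y = G0 (x' y) := rfl
    have h6 : ∀ z : F, G0 z = ∑ i, β.repr z i • G0 (β i) := by
      intro z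
      conv_lhs => rw [← β.sum_repr z]
      rw [Submodule.coe_sum, map_sum]
      simp only [Submodule.coe_smul, map_smul]
    rw [h5, h6]
    rfl
  rw [trace_fin h f _ _ h4, trace_fin h' f _ _ h4]

lemma nucNorm_ge {T : X →L[ℝ] Y} {φ : ℕ → StrongDual ℝ X} {l : ℕ → Y} (hT : IsNucRep T φ l)
    (F : ℕ → Submodule ℝ E) [∀ m, FiniteDimensional ℝ (F m)] (x : ℕ → Y →L[ℝ] E)
    (hx : ∀ m y, x m y ∈ F m) (q : Y →L[ℝ] E) (hq : ‖q‖ ≤ 1) {C : ℝ} (hC : ∀ m, ‖x m‖ ≤ C)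
    (hxq : ∀ y, Tendsto (fun m => x m y) atTop (𝓝 (q y))) (G0 : E →L[ℝ] X)
    (htr : ∑' n, φ n (G0 (q (l n))) = 1) : 1 / (‖G0‖ + 1) ≤ nucNorm T := by
  refine le_nucNorm ⟨_, _, hT⟩ fun a b hab => ?_
  have hW : ∀ m, ‖G0.comp (x m)‖ ≤ ‖G0‖ * C := fun m =>
    (G0.opNorm_comp_le _).trans (mul_le_mul_of_nonneg_left (hC m) (norm_nonneg _))
  have hWG : ∀ y, Tendsto (fun m => G0.comp (x m) y) atTop (𝓝 (G0.comp q y)) := fun y =>
    (G0.continuous.tendsto _).comp (hxq y)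
  have h4 := trace_lim hab _ _ hW hWG
  have h5 := trace_lim hT _ _ hW hWG
  simp_rw [fun m => trace_indep hab hT (F m) (x m) (hx m) G0] at h4
  have h6 := tendsto_nhds_unique h4 h5
  have h8 : ‖∑' n, a n (G0.comp q (b n))‖ ≤ ‖G0.comp q‖ * ∑' n, ‖a n‖ * ‖b n‖ :=
    tsum_of_norm_bounded (hab.1.hasSum.mul_left _) (summable_pair hab _)
  have h7 : ∑' n, φ n (G0.comp q (l n)) = 1 := htr
  rw [h6, h7, norm_one] at h8
  have h9 : 0 ≤ ∑' n, ‖a n‖ * ‖b n‖ := tsum_nonneg fun i => by positivity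
  have hG : ‖G0.comp q‖ ≤ ‖G0‖ := (G0.opNorm_comp_le _).trans (by nlinarith [norm_nonneg G0])
  rw [div_le_iff₀ (by positivity)]
  nlinarith

end trace

lemma coord_bound {X : Type} [NormedAddCommGroup X] [NormedSpace ℝ X]
    (φ : ℕ → StrongDual ℝ X) (e : ℕ → E) (hs : Summable fun i => ‖φ i‖ * ‖e i‖)
    (hz : ∀ x, HasSum (fun i => φ i x • e i) 0) {θ : ℝ} (hθ0 : 0 ≤ θ) (hθ1 : θ ≤ 1) (M n : ℕ)
    (x : X) (w : E) (h4 : HasSum (fun i => φ i x • lift θ (max i M) (e i) n) w) :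
    ‖w‖ ≤ (∑' i, ‖φ (i + M)‖ * ‖e (i + M)‖) * ‖x‖ := by
  have hp : 0 ≤ ∑' i, ‖φ (i + M)‖ * ‖e (i + M)‖ := tsum_nonneg fun i => by positivity
  cases n with
  | zero =>
    simp only [lift_zero] at h4
    rw [h4.unique (hz x), norm_zero]; positivity
  | succ n =>
    simp only [lift_succ] at h4
    by_cases hn : n < M
    · have h5 : ∀ i, n < max i M := fun i => hn.trans_le (le_max_right _ _)
      simp only [h5, if_true] at h4
      have h6 := ((hz x).const_smul θ).neg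
      simp only [smul_zero, neg_zero] at h6
      have h7 : (fun i => φ i x • -(θ • e i)) = fun i => -(θ • φ i x • e i) := by
        ext i; rw [smul_neg, smul_comm]
      rw [h7] at h4
      rw [h4.unique h6, norm_zero]; positivity
    · have h5 := (hasSum_nat_add_iff' M).2 h4
      have h6 : ∑ i ∈ Finset.range M,
          φ i x • (if n < max i M then -(θ • e i) else 0) = 0 := by
        refine Finset.sum_eq_zero fun i hi => ?_
        have := Finset.mem_range.1 hi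
        rw [if_neg (by omega), smul_zero]
      rw [h6, sub_zero] at h5
      rw [← tsum_mul_right]
      refine h5.norm_le_of_bounded
        (((summable_nat_add_iff (f := fun i => ‖φ i‖ * ‖e i‖) M).2 hs).mul_right ‖x‖).hasSum
        fun i => ?_
      rw [norm_smul]
      have h7 := (φ (i + M)).le_opNorm x
      have h8 : ‖(if n < max (i + M) M then -(θ • e (i + M)) else 0)‖ ≤ ‖e (i + M)‖ := by
        split_ifs
        · rw [norm_neg, norm_smul, Real.norm_of_nonneg hθ0]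
          nlinarith [norm_nonneg (e (i + M))]
        · simp
      calc _ ≤ (‖φ (i + M)‖ * ‖x‖) * ‖e (i + M)‖ :=
            mul_le_mul h7 h8 (norm_nonneg _) (by positivity)
        _ = _ := by ring

lemma norm_xN_le {θ : ℝ} (hθ0 : 0 < θ) (m : ℕ) (y : C₀(ℕ, E)) :
    ‖xN θ m y‖ ≤ (1 + θ⁻¹) * ‖y‖ := by
  rw [xN_apply]
  refine (norm_add_le _ _).trans ?_
  rw [norm_smul, Real.norm_of_nonneg (by positivity), add_mul, one_mul]
  exact add_le_add (norm_coord_le _ 0)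
    (mul_le_mul_of_nonneg_left (norm_coord_le _ _) (by positivity))

lemma tendsto_xN (θ : ℝ) (y : C₀(ℕ, E)) : Tendsto (fun m => xN θ m y) atTop (𝓝 (evN 0 y)) := by
  have h4 := (((tendsto_add_atTop_iff_nat 1).2 (tendsto_coord y)).const_smul θ⁻¹).const_add (y 0)
  rw [smul_zero, add_zero] at h4
  exact h4

theorem not_dense [CompleteSpace E] {X : Type} [NormedAddCommGroup X] [NormedSpace ℝ X]
    (hX : ∀ ε : ℝ, 0 < ε → ∃ δ : ℝ, 0 < δ ∧ ∀ x y : X, ‖x‖ ≤ 1 → ‖y‖ ≤ 1 →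
      ε ≤ ‖x - y‖ → ‖x + y‖ ≤ 2 - δ) {I : Type} (ev : I → StrongDual ℝ E)
    (h1 : ∀ (v : E) (M : ℝ), 0 ≤ M → (∀ c, |ev c v| ≤ M) → ‖v‖ ≤ M)
    (h2 : ∀ c v, |ev c v| ≤ ‖v‖) (h3 : ∀ v, {c | 1 / 2 ≤ |ev c v|}.Finite)
    (φ : ℕ → StrongDual ℝ X) (e : ℕ → E) (hs : Summable fun i => ‖φ i‖ * ‖e i‖)
    (hz : ∀ x, HasSum (fun i => φ i x • e i) 0) (G0 : E →L[ℝ] X)
    (htr : HasSum (fun i => φ i (G0 (e i))) 1) :
    ∃ θ : ℝ, ∃ T : X →L[ℝ] YY e θ, IsNuclear T ∧ ∃ δ : ℝ, 0 < δ ∧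
      ∀ S : X →L[ℝ] YY e θ, AttainsNuc S → δ ≤ nucNorm (T - S) := by
  obtain ⟨K, hK⟩ := hs
  have hs := hK.summable
  have hK0 : 0 ≤ K := hK.nonneg fun i => by positivity
  obtain ⟨c, hc⟩ : ∃ c : ℝ, c = 1 / (‖G0‖ + 1) := ⟨_, rfl⟩
  have hc0 : 0 < c := by rw [hc]; positivity
  obtain ⟨θ, hθ0, hθ1, hθ2⟩ : ∃ θ : ℝ, 0 < θ ∧ θ ≤ 1 ∧ θ * K ≤ c / 2 := by
    refine ⟨min 1 (c / (2 * (K + 1))), by positivity, min_le_left _ _, ?_⟩
    have h4 : min 1 (c / (2 * (K + 1))) ≤ c / (2 * (K + 1)) := min_le_right _ _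
    have h5 : 0 < min 1 (c / (2 * (K + 1))) := by positivity
    rw [le_div_iff₀ (by positivity)] at h4
    nlinarith
  have : CompleteSpace (YY e θ) := (isClosed_YY e θ).completeSpace_coe
  obtain ⟨l, hl⟩ : ∃ l : ℕ → ℕ → YY e θ, ∀ M i, (l M i : C₀(ℕ, E)) = lift θ (max i M) (e i) :=
    ⟨fun M i => ⟨lift θ (max i M) (e i), lift_mem e hθ0.ne' (le_max_left _ _)⟩, fun _ _ => rfl⟩
  have hl1 : ∀ M i, ‖l M i‖ ≤ ‖e i‖ := fun M i => by
    rw [← Submodule.norm_coe, hl]; exact norm_lift_le hθ0.le hθ1 _ _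
  have hsl : ∀ M, Summable fun i => ‖φ i‖ * ‖l M i‖ := fun M =>
    Summable.of_nonneg_of_le (fun i => by positivity)
      (fun i => mul_le_mul_of_nonneg_left (hl1 M i) (norm_nonneg _)) hs
  choose T hT using fun M => exists_rep φ (l M) (hsl M)
  have hTn : ∀ M, ‖T M‖ ≤ ∑' i, ‖φ (i + M)‖ * ‖e (i + M)‖ := by
    intro M
    have hp : 0 ≤ ∑' i, ‖φ (i + M)‖ * ‖e (i + M)‖ := tsum_nonneg fun i => by positivity
    refine ContinuousLinearMap.opNorm_le_bound _ hp fun x => ?_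
    rw [← Submodule.norm_coe]
    refine norm_le_of_coord (by positivity) fun n => ?_
    refine coord_bound φ e hs hz hθ0.le hθ1 M n x _ ?_
    have h4 := (((hT M).2 x).mapL (YY e θ).subtypeL).mapL (evN n)
    simp only [map_smul, Submodule.subtypeL_apply, hl, evN_apply] at h4
    exact h4
  have hT0 : Tendsto (fun M => ‖T M‖) atTop (𝓝 0) :=
    squeeze_zero (fun _ => norm_nonneg _) hTn (tendsto_sum_nat_add fun i => ‖φ i‖ * ‖e i‖)
  have hN : c ≤ nucNorm (T 0) := by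
    rw [hc]
    refine nucNorm_ge (hT 0) (En e) (fun m => (xN θ m).comp (YY e θ).subtypeL)
      (fun m y => ?_) ((evN 0).comp (YY e θ).subtypeL) ?_ (C := 1 + θ⁻¹)
      (fun m => ?_) (fun y => ?_) G0 ?_
    · rw [ContinuousLinearMap.comp_apply, Submodule.subtypeL_apply]
      exact mem_YY.1 y.2 m
    · refine ContinuousLinearMap.opNorm_le_bound _ zero_le_one fun y => ?_
      rw [one_mul, ContinuousLinearMap.comp_apply, Submodule.subtypeL_apply, evN_apply,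
        ← Submodule.norm_coe]
      exact norm_coord_le (y : C₀(ℕ, E)) 0
    · refine ContinuousLinearMap.opNorm_le_bound _ (by positivity) fun y => ?_
      rw [ContinuousLinearMap.comp_apply, Submodule.subtypeL_apply, ← Submodule.norm_coe]
      exact norm_xN_le hθ0 m (y : C₀(ℕ, E))
    · simp only [ContinuousLinearMap.comp_apply, Submodule.subtypeL_apply]
      exact tendsto_xN θ (y : C₀(ℕ, E))
    · simp only [ContinuousLinearMap.comp_apply, Submodule.subtypeL_apply, hl, evN_apply,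
        lift_zero]
      exact htr.tsum_eq
  refine ⟨θ, T 0, ⟨_, _, hT 0⟩, c / 8, by positivity, fun S hS => ?_⟩
  refine far_from_attaining hX (flat_YY ev h1 h2 h3 e θ) T φ l hT hT0 hc0 hN _
    (hK.mul_left θ) hθ2 (fun M i => ?_) S hS
  have h6 : ‖l 0 i - l M i‖ ≤ θ * ‖e i‖ := by
    rw [← Submodule.norm_coe, Submodule.coe_sub, hl, hl]
    exact norm_lift_sub_le hθ0.le _ _ _
  have := norm_nonneg (φ i)
  nlinarith

end Pool.Agent.H996Z.Nuc
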